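import Pool.Agent.H32.N6H.All

/-!
# The Hasse principle for smooth intersections of two quadrics in `ℙⁿ`, `n ≥ 6`

`MP_63b6b1_nt`: every number field `K`, every `n ≥ 6` and every smooth complete intersection of
two quadrics in `ℙⁿ` over `K`. There is no condition besides smoothness. The statement is the
frozen statement with `6 ≤ n` in place of `5 ≤ n` (and without the condition at the complex
places, which always holds).
-/

set_option autoImplicit false

namespace Pool.Agent.Results.MP_63b6b1_nt.DimensionAtLeastFour

/-- Let `K` be a number field, `n ≥ 6` and let `f₁`, `f₂` be quadratic forms in `n + 1` variables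
over `K` whose common zero set `X` in `ℙⁿ` is a smooth complete intersection. If `X` has a point
over `ℝ` for every real embedding of `K` and over `K_v` for every finite place `v`, then `X` has
a point over `K`. -/
theorem result :
    ∀ (K : Type) [Field K] [NumberField K] (n : ℕ), 6 ≤ n →
      ∀ f₁ f₂ : MvPolynomial (Fin (n + 1)) K,
        f₁.IsHomogeneous 2 → f₂.IsHomogeneous 2 →
        (∀ x : Fin (n + 1) → AlgebraicClosure K, x ≠ 0 →
            MvPolynomial.eval₂ (algebraMap K (AlgebraicClosure K)) x f₁ = 0 →
            MvPolynomial.eval₂ (algebraMap K (AlgebraicClosure K)) x f₂ = 0 →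
            LinearIndependent (AlgebraicClosure K)
              ![fun i => MvPolynomial.eval₂ (algebraMap K (AlgebraicClosure K)) x
                  (MvPolynomial.pderiv i f₁),
                fun i => MvPolynomial.eval₂ (algebraMap K (AlgebraicClosure K)) x
                  (MvPolynomial.pderiv i f₂)]) →
        (∀ φ : K →+* ℝ, ∃ x : Fin (n + 1) → ℝ, x ≠ 0 ∧
            MvPolynomial.eval₂ φ x f₁ = 0 ∧ MvPolynomial.eval₂ φ x f₂ = 0) →
        (∀ v : IsDedekindDomain.HeightOneSpectrum (NumberField.RingOfIntegers K),
            ∃ x : Fin (n + 1) → v.adicCompletion K, x ≠ 0 ∧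
              MvPolynomial.eval₂ (algebraMap K (v.adicCompletion K)) x f₁ = 0 ∧
              MvPolynomial.eval₂ (algebraMap K (v.adicCompletion K)) x f₂ = 0) →
        ∃ x : Fin (n + 1) → K, x ≠ 0 ∧
          MvPolynomial.eval x f₁ = 0 ∧ MvPolynomial.eval x f₂ = 0 :=
  Pool.Agent.H32.N6H.All.aFIN

end Pool.Agent.Results.MP_63b6b1_nt.DimensionAtLeastFour
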