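import Pool.Agent.H34.FQ.All

/-!
# The Hasse principle for almost all sections of a fixed quadric

`MP_63b6b1_nt`, `k = ℚ`, every `n = s - 1 ≥ 5`. The quadric `F = 0` is fixed and only `f` varies.
The points of the quadric which are used are of the form `T (c, y, v)` with
`μ c y + q (c, v) = 0` and `c = m l`, `l` a prime of size `X`; pairs of such points are counted with
Gauss sums modulo `l`.
-/

set_option autoImplicit false

open Filter Topology

namespace Pool.Agent.Results.MP_63b6b1_nt.FixedQuadric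

/-- the monomials `x_i x_j`, `i ≤ j`, in `s` variables -/
abbrev Mon (s : ℕ) : Type := {p : Fin s × Fin s // p.1 ≤ p.2}

variable {s : ℕ}

/-- the value at `x` of the quadratic form with the integral coefficients `f` -/
def val {R : Type} [CommRing R] (f : Mon s → ℤ) (x : Fin s → R) : R :=
  ∑ p, (f p : R) * (x p.1.1 * x p.1.2)

/-- the partial derivative at `x` with respect to `x_j` -/
def der {R : Type} [CommRing R] (f : Mon s → ℤ) (x : Fin s → R) (j : Fin s) : R :=
  ∑ p, (f p : R) * ((if p.1.1 = j then x p.1.2 else 0) + (if p.1.2 = j then x p.1.1 else 0))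

/-- `F` and `f` have a nonzero common zero in `R` -/
def Sol (R : Type) [CommRing R] (F f : Mon s → ℤ) : Prop :=
  ∃ x : Fin s → R, x ≠ 0 ∧ val F x = 0 ∧ val f x = 0

/-- `F = f = 0` is soluble over the real numbers and over every `p`-adic field -/
def LocSol (F f : Mon s → ℤ) : Prop := Sol ℝ F f ∧ ∀ (p : ℕ) [Fact p.Prime], Sol ℚ_[p] F f

/-- `F = f = 0` is a smooth complete intersection in projective space: the gradients are linearly
independent at every nonzero zero over an algebraic closure of `ℚ` -/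
def Smooth (F f : Mon s → ℤ) : Prop :=
  ∀ x : Fin s → AlgebraicClosure ℚ, x ≠ 0 → val F x = 0 → val f x = 0 →
    LinearIndependent (AlgebraicClosure ℚ) ![der F x, der f x]

/-- the number of the forms with coefficients in `[-A, A]` which have the property `P` -/
noncomputable def count (A : ℕ) (P : (Mon s → ℤ) → Prop) : ℝ :=
  ({f : Mon s → ℤ | (∀ p, |f p| ≤ A) ∧ P f}.ncard : ℝ)

open Pool.Agent.H32.RQ Pool.Agent.H34.FQ

theorem count_eq (A : ℕ) (P : (Mon s → ℤ) → Prop) [DecidablePred P] :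
    count A P = (((b1 s A).filter P).card : ℝ) := by
  unfold count
  rw [← Set.ncard_coe_finset]
  congr 2
  ext f
  rw [Finset.coe_filter, b1]
  simp only [Set.mem_ofPred_eq, Fintype.mem_piFinset, Finset.mem_Icc, abs_le]

theorem sm_iff (F f : Mon s → ℤ) : Sm ![F, f] ↔ Smooth F f := by
  constructor
  · intro h x hx h1 h2
    exact h x hx (Fin.forall_fin_two.mpr ⟨h1, h2⟩)
  · intro h x hx h1
    exact h x hx (h1 0) (h1 1)

theorem ls_iff (F f : Mon s → ℤ) : LS ![F, f] ↔ LocSol F f := by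
  constructor
  · rintro ⟨⟨x, hx, h1⟩, h2⟩
    refine ⟨⟨x, hx, h1 0, h1 1⟩, fun p _ => ?_⟩
    obtain ⟨y, hy, h3⟩ := h2 p
    exact ⟨y, hy, h3 0, h3 1⟩
  · rintro ⟨⟨x, hx, h1, h1'⟩, h2⟩
    refine ⟨⟨x, hx, Fin.forall_fin_two.mpr ⟨h1, h1'⟩⟩, fun p _ => ?_⟩
    obtain ⟨y, hy, h3, h3'⟩ := h2 p
    exact ⟨y, hy, Fin.forall_fin_two.mpr ⟨h3, h3'⟩⟩

theorem val_int (f : Mon s → ℤ) (x : Fin s → ℤ) : val f x = qf f x := rfl

/-- Let `s ≥ 6` and let `F` be a nondegenerate integral quadratic form in `s` variables with a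
nonzero integral zero. (1) For almost all integral quadratic forms `f` the scheme `F = f = 0` is a
smooth complete intersection. (2) For a positive proportion of the `f` it is smooth and has a
rational point. (3) Among the `f` for which it is smooth and soluble over `ℝ` and all `ℚ_p`, the
proportion of those with a rational point tends to one. (4) For every `ε > 0` there is a `K` such that
for all large `A` all but the proportion `ε` of the `f` for which `F = f = 0` is soluble over `ℝ`
and all `ℚ_p` have an integral zero `x ≠ 0` with `|x_j| ^ (s - 4) ≤ K A (1 + log A)` for all `j`. -/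
theorem result (s : ℕ) (hs : 6 ≤ s) (F : Mon s → ℤ)
    (hF : ∀ x : Fin s → ℤ, (∀ j, der F x j = 0) → x = 0)
    (hz : ∃ x : Fin s → ℤ, x ≠ 0 ∧ val F x = 0) :
    Tendsto (fun A : ℕ => count A (fun f => ¬ Smooth F f) / count (s := s) A fun _ => True)
      atTop (𝓝 0) ∧
    (∃ δ : ℝ, 0 < δ ∧ ∃ A₀ : ℕ, ∀ A : ℕ, A₀ ≤ A →
      δ * count (s := s) A (fun _ => True) ≤ count A fun f => Smooth F f ∧ Sol ℤ F f) ∧
    Tendsto (fun A : ℕ => count A (fun f => Smooth F f ∧ LocSol F f ∧ Sol ℤ F f) /
      count A fun f => Smooth F f ∧ LocSol F f) atTop (𝓝 1) ∧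
    ∀ ε : ℝ, 0 < ε → ∃ K A₀ : ℕ, ∀ A : ℕ, A₀ ≤ A →
      count A (fun f => LocSol F f ∧ ¬ ∃ x : Fin s → ℤ, x ≠ 0 ∧ val F x = 0 ∧ val f x = 0 ∧
        ∀ j, |(x j : ℝ)| ^ (s - 4) ≤ K * A * (1 + Real.log A)) ≤
      ε * count (s := s) A fun _ => True := by
  classical
  have hdet : (gr F).det ≠ 0 := by
    intro h0
    rw [← Matrix.exists_mulVec_eq_zero_iff] at h0
    obtain ⟨w, hw0, hw⟩ := h0
    apply hw0
    apply hF w
    intro j
    have h1 := congrFun hw j
    exact (Pool.Agent.H13.RQ.Hs_mulVec F w j).symm.trans h1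
  have hcard : ∀ A : ℕ, count (s := s) A (fun _ => True) = ((b1 s A).card : ℝ) := by
    intro A
    rw [count_eq, Finset.filter_true_of_mem fun _ _ => trivial]
  obtain ⟨h1, ⟨δ, hδ, A₀, h2⟩, h3, h4⟩ := All.x_RT1 s F hs hdet hz
  refine ⟨?_, ⟨δ, hδ, A₀, fun A hA => ?_⟩, ?_, fun ε hε => ?_⟩
  · refine h1.congr fun A => ?_
    rw [hcard, count_eq]
    congr 4
    funext f
    rw [sm_iff]
  · rw [hcard, count_eq]
    refine (h2 A hA).trans (le_of_eq ?_)
    congr 3
    funext f
    rw [sm_iff]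
    rfl
  · refine h3.congr fun A => ?_
    rw [count_eq, count_eq]
    congr 4
    · funext f
      rw [sm_iff, ls_iff]
      rfl
    · funext f
      rw [sm_iff, ls_iff]
  · obtain ⟨K, A₁, h5⟩ := h4 ε hε
    refine ⟨K, A₁, fun A hA => ?_⟩
    rw [hcard, count_eq]
    refine (le_of_eq ?_).trans (h5 A hA)
    congr 3
    funext f
    rw [ls_iff]
    rfl

end Pool.Agent.Results.MP_63b6b1_nt.FixedQuadric
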