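import Pool.Agent.H34.FS.All

/-!
# The Hasse principle for almost all intersections of two quadrics with a given hyperplane section

`MP_63b6b1_nt`, `k = ℚ`, every `n = r ≥ 5`. The section `V = {F_0 = F_1 = 0}` of dimension `n - 3` is
fixed, and the pairs of quadratic forms in `n + 1` variables which restrict to it are ordered by the
size of their other coefficients.
-/

set_option autoImplicit false

open Filter Topology

namespace Pool.Agent.Results.MP_63b6b1_nt.FixedSection

/-- the monomials `x_i x_j`, `i ≤ j`, in `s` variables -/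
abbrev Mon (s : ℕ) : Type := {p : Fin s × Fin s // p.1 ≤ p.2}

variable {s : ℕ}

/-- the value at `x` of the quadratic form with the integral coefficients `f` -/
def val {R : Type} [CommRing R] (f : Mon s → ℤ) (x : Fin s → R) : R :=
  ∑ p, (f p : R) * (x p.1.1 * x p.1.2)

/-- the partial derivative at `x` with respect to `x_j` -/
def der {R : Type} [CommRing R] (f : Mon s → ℤ) (x : Fin s → R) (j : Fin s) : R :=
  ∑ p, (f p : R) * ((if p.1.1 = j then x p.1.2 else 0) + (if p.1.2 = j then x p.1.1 else 0))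

/-- the pair `G` has a nonzero zero in `R` -/
def Sol (R : Type) [CommRing R] (G : Fin 2 → Mon s → ℤ) : Prop :=
  ∃ x : Fin s → R, x ≠ 0 ∧ ∀ i, val (G i) x = 0

/-- the pair is soluble over every `p`-adic field -/
def PSol (G : Fin 2 → Mon s → ℤ) : Prop := ∀ (p : ℕ) [Fact p.Prime], Sol ℚ_[p] G

/-- the pair is a smooth complete intersection in projective space: the gradients are linearly
independent at every nonzero zero over an algebraic closure of `ℚ` -/
def Smooth (G : Fin 2 → Mon s → ℤ) : Prop :=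
  ∀ x : Fin s → AlgebraicClosure ℚ, x ≠ 0 → (∀ i, val (G i) x = 0) →
    LinearIndependent (AlgebraicClosure ℚ) ![der (G 0) x, der (G 1) x]

variable {r : ℕ}

/-- `G` restricts to `F` on the hyperplane `z_0 = 0`, and its coefficients at the monomials
`z_0 z_j` are in `[-A, A]` -/
def Fam (F : Fin 2 → Mon r → ℤ) (A : ℕ) (G : Fin 2 → Mon (r + 1) → ℤ) : Prop :=
  (∀ i, ∀ x : Fin r → ℤ, val (G i) (Fin.cons 0 x) = val (F i) x) ∧
    ∀ i j, |G i ⟨(0, j), Fin.zero_le j⟩| ≤ A

/-- the number of the members of the family which have the property `P` -/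
noncomputable def count (F : Fin 2 → Mon r → ℤ) (A : ℕ)
    (P : (Fin 2 → Mon (r + 1) → ℤ) → Prop) : ℝ :=
  ({G : Fin 2 → Mon (r + 1) → ℤ | Fam F A G ∧ P G}.ncard : ℝ)

open Pool.Agent.H32.RQ Pool.Agent.H34.FQ Pool.Agent.H34.FS

theorem gg_zero (F : Fin 2 → Mon r → ℤ) (L : Fin 2 → Fin (r + 1) → ℤ) (i : Fin 2)
    (j : Fin (r + 1)) : gg F L i ⟨(0, j), Fin.zero_le j⟩ = L i j := by
  unfold gg gf
  rw [dif_pos rfl]

theorem fam_iff (F : Fin 2 → Mon r → ℤ) (A : ℕ) (G : Fin 2 → Mon (r + 1) → ℤ) :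
    Fam F A G ↔ ∃ L ∈ bL r A, gg F L = G := by
  constructor
  · rintro ⟨h1, h2⟩
    obtain ⟨L, hL, -⟩ := All.x_GGU r F G h1
    refine ⟨L, ?_, hL.symm⟩
    rw [bL, Fintype.mem_piFinset]
    intro i
    rw [Fintype.mem_piFinset]
    intro j
    rw [Finset.mem_Icc]
    have h3 := h2 i j
    have h4 : G = gg F L := hL
    rw [h4, gg_zero] at h3
    exact abs_le.mp h3
  · rintro ⟨L, hL, rfl⟩
    refine ⟨fun i x => ?_, fun i j => ?_⟩
    · have h5 := (All.x_GGE ℤ r (F i) (L i) 0 x).1
      rw [zero_mul, add_zero] at h5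
      exact h5
    · rw [gg_zero]
      rw [bL, Fintype.mem_piFinset] at hL
      have h6 := hL i
      rw [Fintype.mem_piFinset] at h6
      exact abs_le.mpr (Finset.mem_Icc.mp (h6 j))

theorem count_eq (F : Fin 2 → Mon r → ℤ) (A : ℕ) (P : (Fin 2 → Mon (r + 1) → ℤ) → Prop)
    [DecidablePred fun L : Fin 2 → Fin (r + 1) → ℤ => P (gg F L)] :
    count F A P = (((bL r A).filter fun L => P (gg F L)).card : ℝ) := by
  unfold count
  have h1 : {G : Fin 2 → Mon (r + 1) → ℤ | Fam F A G ∧ P G} =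
      (gg F) '' (((bL r A).filter fun L => P (gg F L) : Finset _) : Set _) := by
    ext G
    rw [Set.mem_image]
    constructor
    · rintro ⟨h2, h3⟩
      obtain ⟨L, hL, rfl⟩ := (fam_iff F A G).mp h2
      exact ⟨L, Finset.mem_coe.mpr (Finset.mem_filter.mpr ⟨hL, h3⟩), rfl⟩
    · rintro ⟨L, hL, rfl⟩
      have h4 := Finset.mem_filter.mp (Finset.mem_coe.mp hL)
      exact ⟨(fam_iff F A _).mpr ⟨L, h4.1, rfl⟩, h4.2⟩
  rw [h1, Set.ncard_image_of_injective, Set.ncard_coe_finset]
  intro L L' h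
  funext i j
  rw [← gg_zero F L i j, ← gg_zero F L' i j]
  exact congrFun (congrFun h i) _

theorem sm_iff (G : Fin 2 → Mon s → ℤ) : Sm G ↔ Smooth G := Iff.rfl

theorem lp_iff (G : Fin 2 → Mon s → ℤ) : LP G ↔ PSol G := Iff.rfl

theorem qz_iff (G : Fin 2 → Mon s → ℤ) : QZ G ↔ Sol ℤ G := Iff.rfl

/-- Let `r ≥ 5` and let `F` be a pair of integral quadratic forms in `r` variables whose zero scheme
`V` is a smooth complete intersection. Consider the pairs `G` of integral quadratic forms in `r + 1`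
variables with `G (0, x) = F (x)` and other coefficients in `[-A, A]`, as `A → ∞`. (1) Almost all
define a smooth complete intersection. (2) For a positive proportion it is smooth and has a rational
point. (3) Among the `G` which are smooth and soluble over all `ℚ_p`, the proportion of those with a
rational point tends to one. (4) If `V` is soluble over all `ℚ_p`, then almost all `G` are smooth with
a rational point. (5) For every `ε > 0` there is a `K` such that for all large `A` all but the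
proportion `ε` of the `G` are insoluble over some `ℚ_p` or have an integral zero `z` with
`1 ≤ z_0 ≤ K` and `|z_j| ^ (r - 2) ≤ K A ^ 2` for `j ≥ 1`. -/
theorem result (r : ℕ) (hr : 5 ≤ r) (F : Fin 2 → Mon r → ℤ) (hF : Smooth F) :
    Tendsto (fun A : ℕ => count F A (fun G => ¬ Smooth G) / count F A fun _ => True)
      atTop (𝓝 0) ∧
    (∃ δ : ℝ, 0 < δ ∧ ∃ A₀ : ℕ, ∀ A : ℕ, A₀ ≤ A →
      δ * count F A (fun _ => True) ≤ count F A fun G => Smooth G ∧ Sol ℤ G) ∧
    Tendsto (fun A : ℕ => count F A (fun G => Smooth G ∧ PSol G ∧ Sol ℤ G) /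
      count F A fun G => Smooth G ∧ PSol G) atTop (𝓝 1) ∧
    (PSol F → Tendsto (fun A : ℕ => count F A (fun G => Smooth G ∧ Sol ℤ G) /
      count F A fun _ => True) atTop (𝓝 1)) ∧
    ∀ ε : ℝ, 0 < ε → ∃ K A₀ : ℕ, ∀ A : ℕ, A₀ ≤ A →
      count F A (fun G => PSol G ∧ ¬ ∃ z : Fin (r + 1) → ℤ, 1 ≤ z 0 ∧ z 0 ≤ K ∧
        (∀ i, val (G i) z = 0) ∧ ∀ j : Fin r, |z j.succ| ^ (r - 2) ≤ K * (A : ℤ) ^ 2) ≤
      ε * count F A fun _ => True := by
  classical
  have hcard : ∀ A : ℕ, count F A (fun _ => True) = ((bL r A).card : ℝ) := by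
    intro A
    rw [count_eq, Finset.filter_true_of_mem fun _ _ => trivial]
  obtain ⟨h1, ⟨δ, hδ, A₀, h2⟩, h3, h4, h5⟩ := All.x_FIN r F hr hF
  refine ⟨?_, ⟨δ, hδ, A₀, fun A hA => ?_⟩, ?_, fun hP => ?_, fun ε hε => ?_⟩
  · refine h1.congr fun A => ?_
    rw [hcard, count_eq]
    rfl
  · rw [hcard, count_eq]
    exact h2 A hA
  · refine h3.congr fun A => ?_
    rw [count_eq, count_eq]
    rfl
  · refine (h4 hP).congr fun A => ?_
    rw [hcard, count_eq]
    rfl
  · obtain ⟨K, A₁, h6⟩ := h5 ε hε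
    refine ⟨K, A₁, fun A hA => ?_⟩
    rw [hcard, count_eq]
    refine le_trans (Nat.cast_le.mpr (Finset.card_le_card ?_)) (h6 A hA)
    intro L hL
    rw [Finset.mem_filter] at hL ⊢
    refine ⟨hL.1, hL.2.1, fun h7 => hL.2.2 ?_⟩
    obtain ⟨c, x, hc1, hc2, hc3, hc4⟩ := h7
    refine ⟨cv (c : ℤ) x, ?_, ?_, hc3, hc4⟩
    · change (1 : ℤ) ≤ c
      exact_mod_cast hc1
    · change (c : ℤ) ≤ K
      exact_mod_cast hc2

end Pool.Agent.Results.MP_63b6b1_nt.FixedSection
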