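import Pool.Agent.H32.RK.All

/-!
# The Hasse principle for almost all intersections of two quadrics over number fields

`MP_63b6b1_nt`, every number field `K`, every `n = s - 1 ≥ 5`.

`ω` is a `ℤ`-basis of the ring of integers `𝓞 K`. A pair `c : Fin 2 → Mon s → ι → ℤ` stands for the
two quadratic forms `F_i = ∑_{j ≤ l} (∑_m c i (j, l) m ω_m) x_j x_l` in `s` variables over `𝓞 K`
(`ec ω c`), `bx ι s A` is the set of the pairs all of whose coordinates `c i (j, l) m` have absolute
value at most `A`. `Sm` says that `F_0 = F_1 = 0` is a smooth complete intersection in projective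
space over an algebraic closure of `K` (the gradients are linearly independent at every nonzero
zero), `LS` that `F_0 = F_1 = 0` has a nonzero solution over every completion of `K` (as in the
frozen statement: all real and complex embeddings and all finite places).

The proof is a second moment argument in the spirit of Browning, Le Boudec and Sawin, carried out
modulo a large integer with Fejér weights.
-/

set_option autoImplicit false

open Filter Topology NumberField Pool.Agent.H32.RQ Pool.Agent.H32.RK

namespace Pool.Agent.Results.MP_63b6b1_nt.HasseNumberFields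

open Classical in
/-- Let `K` be a number field, `ω` a `ℤ`-basis of its ring of integers and `s ≥ 6`. (1) Almost all
pairs of integral quadratic forms in `s` variables define a smooth complete intersection. (2) A
positive proportion of the pairs defines a smooth complete intersection with a `K`-rational point.
(3) Among the smooth pairs which are soluble over all completions of `K`, the proportion of those
with a `K`-rational point tends to one. (4) For every `ε > 0` there is a `C` such that for all large
`A` all but `ε |bx s A|` of the pairs in `bx s A` which are soluble over all completions have an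
integral zero `x ≠ 0` with `|x_j|_w ^ (s - 4) ≤ C A ^ 2` for all `j` and all infinite places `w`. -/
theorem result (K : Type) [Field K] [NumberField K] (ι : Type) [Fintype ι] [DecidableEq ι]
    (ω : Module.Basis ι ℤ (𝓞 K)) (s : ℕ) (hs : 6 ≤ s) :
    Tendsto (fun A : ℕ => (((bx ι s A).filter fun c => ¬ Sm (ec ω c)).card : ℝ) /
      (bx ι s A).card) atTop (𝓝 0) ∧
    (∃ δ : ℝ, 0 < δ ∧ ∃ A₀ : ℕ, ∀ A : ℕ, A₀ ≤ A → δ * ((bx ι s A).card : ℝ) ≤
      (((bx ι s A).filter fun c => Sm (ec ω c) ∧
        ∃ x : Fin s → K, x ≠ 0 ∧ ∀ i, qf (fun p => (ec ω c i p : K)) x = 0).card : ℝ)) ∧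
    Tendsto (fun A : ℕ => (((bx ι s A).filter fun c => Sm (ec ω c) ∧ LS (ec ω c) ∧
        ∃ x : Fin s → K, x ≠ 0 ∧ ∀ i, qf (fun p => (ec ω c i p : K)) x = 0).card : ℝ) /
      (((bx ι s A).filter fun c => Sm (ec ω c) ∧ LS (ec ω c)).card : ℝ)) atTop (𝓝 1) ∧
    ∀ ε : ℝ, 0 < ε → ∃ (C : ℝ) (A₀ : ℕ), ∀ A : ℕ, A₀ ≤ A →
      (((bx ι s A).filter fun c => LS (ec ω c) ∧ ¬ ∃ x : Fin s → 𝓞 K, x ≠ 0 ∧
        (∀ i, qf (ec ω c i) x = 0) ∧
        ∀ j (w : InfinitePlace K), w (x j : K) ^ (s - 4) ≤ C * (A : ℝ) ^ 2).card : ℝ) ≤
      ε * ((bx ι s A).card : ℝ) := by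
  have h := All.x_RAT K ι ω s hs
  exact h

end Pool.Agent.Results.MP_63b6b1_nt.HasseNumberFields
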